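import Pool.Agent.Helper93.L2.Phase
import Pool.Agent.Helper72.L2.ReInt

/-!
# LN2-R16b (MP_730da0_ag): the phase identity

A nonnegative function with integral `0` that is continuous off a finite set vanishes off that set.
-/

namespace Pool.Agent.Helper83.L2

open MeasureTheory Pool.Agent.Helper93.L2 Pool.Agent.Helper72.L2

/-- `‖conj φ / ‖φ‖‖ ≤ 1` -/
theorem norm_phase_le (x : ℂ) : ‖(starRingEnd ℂ) x / (‖x‖ : ℂ)‖ ≤ 1 := by
  rw [norm_div, Complex.norm_real, norm_norm, RCLike.norm_conj]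
  exact div_self_le_one _

/-- each summand is nonnegative -/
theorem term_nonneg (x y d : ℂ) : 0 ≤ ‖y‖ * ‖d‖ ^ 2 -
    ((starRingEnd ℂ) x / (‖x‖ : ℂ) * (y * d ^ 2)).re := by
  have h1 : ((starRingEnd ℂ) x / (‖x‖ : ℂ) * (y * d ^ 2)).re ≤
      ‖(starRingEnd ℂ) x / (‖x‖ : ℂ) * (y * d ^ 2)‖ := Complex.re_le_norm _
  have h2 : ‖(starRingEnd ℂ) x / (‖x‖ : ℂ) * (y * d ^ 2)‖ ≤ ‖y‖ * ‖d‖ ^ 2 := by
    rw [norm_mul, norm_mul, norm_pow]
    exact mul_le_of_le_one_left (by positivity) (norm_phase_le x)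
  linarith

/-- a summand that vanishes gives the phase identity -/
theorem eq_of_term (x y d : ℂ) (hx : x ≠ 0) (h : ‖y‖ * ‖d‖ ^ 2 -
    ((starRingEnd ℂ) x / (‖x‖ : ℂ) * (y * d ^ 2)).re = 0) :
    (starRingEnd ℂ) x * (y * d ^ 2) = ((‖x‖ * (‖y‖ * ‖d‖ ^ 2) : ℝ) : ℂ) := by
  set u : ℂ := (starRingEnd ℂ) x / (‖x‖ : ℂ) * (y * d ^ 2) with hu
  have h2 : ‖u‖ ≤ ‖y‖ * ‖d‖ ^ 2 := by
    rw [hu, norm_mul, norm_mul, norm_pow]
    exact mul_le_of_le_one_left (by positivity) (norm_phase_le x)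
  have h3 : u.re = ‖y‖ * ‖d‖ ^ 2 := by linarith
  have h4 : ‖u‖ = u.re := le_antisymm (by rw [h3]; exact h2) (Complex.re_le_norm u)
  have h5 : (0 : ℝ) ≤ u.re := h4 ▸ norm_nonneg u
  have him : u.im = 0 := by
    have h6 : ‖u‖ ^ 2 = u.re ^ 2 + u.im ^ 2 := by
      rw [← Complex.normSq_eq_norm_sq, Complex.normSq_apply]; ring
    rw [h4] at h6
    have : u.im ^ 2 = 0 := by linarith
    exact pow_eq_zero_iff (two_ne_zero) |>.1 this
  have h7 : u = ((‖y‖ * ‖d‖ ^ 2 : ℝ) : ℂ) := by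
    apply Complex.ext
    · rw [Complex.ofReal_re, h3]
    · rw [Complex.ofReal_im, him]
  have hn : ((‖x‖ : ℝ) : ℂ) ≠ 0 := by exact_mod_cast norm_ne_zero_iff.2 hx
  have h8 : (starRingEnd ℂ) x * (y * d ^ 2) = (‖x‖ : ℂ) * u := by
    rw [hu]
    field_simp
  rw [h8, h7]
  push_cast
  ring

/-- the function `H` is continuous off `P ∪ {s}` -/
theorem cont_H (P : Finset ℂ) (N : ℕ) (W : ℂ → Set ℂ) (a : ℂ → ℂ → ℂ) (hB : Branches P N W a)
    (p : Fin 4 → ℂ) (hpP : ∀ j, p j ∈ P) (s : ℂ) (av : ∀ z ∉ P, ∀ w ∈ W z, ∀ j, w ≠ p j)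
    (z₀ : ℂ) (hz₀ : z₀ ∉ P) (hs : z₀ ≠ s) :
    ContinuousAt (fun z => ∑ᶠ w ∈ W z, (‖phi p s w‖ * ‖a z w‖ ^ 2 -
      ((starRingEnd ℂ) (phi p s z) / (‖phi p s z‖ : ℂ) * (phi p s w * a z w ^ 2)).re)) z₀ := by
  obtain ⟨r, hr, -, σ, h1, h2, h3⟩ := hB z₀ hz₀
  have hnhds : Metric.ball z₀ r ∈ nhds z₀ := Metric.ball_mem_nhds _ hr
  have hev : (fun z => ∑ j, (‖phi p s (σ j z)‖ * ‖deriv (σ j) z‖ ^ 2 -
      ((starRingEnd ℂ) (phi p s z) / (‖phi p s z‖ : ℂ) *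
        (phi p s (σ j z) * deriv (σ j) z ^ 2)).re)) =ᶠ[nhds z₀]
      fun z => ∑ᶠ w ∈ W z, (‖phi p s w‖ * ‖a z w‖ ^ 2 -
      ((starRingEnd ℂ) (phi p s z) / (‖phi p s z‖ : ℂ) * (phi p s w * a z w ^ 2)).re) := by
    filter_upwards [hnhds] with z hz
    obtain ⟨hinj, hW⟩ := h2 z hz
    rw [hW, finsum_mem_range hinj, finsum_eq_sum_of_fintype]
    exact Finset.sum_congr rfl fun j _ => by rw [h3 z hz j]
  refine ContinuousAt.congr ?_ hev
  have hself : z₀ ∈ Metric.ball z₀ r := Metric.mem_ball_self hr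
  refine tendsto_finsetSum _ fun j _ => ?_
  have hc1 : ContinuousAt (σ j) z₀ := ((h1 j).differentiableAt hnhds).continuousAt
  have hc2 : ContinuousAt (deriv (σ j)) z₀ :=
    ((((h1 j).deriv Metric.isOpen_ball)).differentiableAt hnhds).continuousAt
  have hmem : σ j z₀ ∈ W z₀ := by rw [(h2 z₀ hself).2]; exact ⟨j, rfl⟩
  have hc3 : ContinuousAt (fun z => phi p s (σ j z)) z₀ :=
    ContinuousAt.comp (g := phi p s) (continuousAt_phi p s (σ j z₀) (av z₀ hz₀ _ hmem)) hc1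
  have hzp : ∀ i, z₀ ≠ p i := fun i h => hz₀ (h ▸ hpP i)
  have hc4 : ContinuousAt (phi p s) z₀ := continuousAt_phi p s z₀ hzp
  have hne : phi p s z₀ ≠ 0 := by
    unfold phi
    exact div_ne_zero (sub_ne_zero.2 hs)
      (Finset.prod_ne_zero_iff.2 fun i _ => sub_ne_zero.2 (hzp i))
  have hn : ((‖phi p s z₀‖ : ℝ) : ℂ) ≠ 0 := by exact_mod_cast norm_ne_zero_iff.2 hne
  have hc5 : ContinuousAt (fun z => (starRingEnd ℂ) (phi p s z) / (‖phi p s z‖ : ℂ)) z₀ := by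
    refine ContinuousAt.div ?_ ?_ hn
    · exact Complex.continuous_conj.continuousAt.comp hc4
    · exact Complex.continuous_ofReal.continuousAt.comp hc4.norm
  have hc6 : ContinuousAt (fun z => ((starRingEnd ℂ) (phi p s z) / (‖phi p s z‖ : ℂ) *
        (phi p s (σ j z) * deriv (σ j) z ^ 2)).re) z₀ :=
    Complex.continuous_re.continuousAt.comp (hc5.mul (hc3.mul (hc2.pow 2)))
  exact (hc3.norm.mul (hc2.norm.pow 2)).sub hc6

theorem phase_eq (P : Finset ℂ) (N : ℕ) (W : ℂ → Set ℂ) (a : ℂ → ℂ → ℂ) (hB : Branches P N W a)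
    (p : Fin 4 → ℂ) (hpP : ∀ j, p j ∈ P) (s : ℂ) (av : ∀ z ∉ P, ∀ w ∈ W z, ∀ j, w ≠ p j)
    (hi : Integrable (fun z => ∑ᶠ w ∈ W z, (‖phi p s w‖ * ‖a z w‖ ^ 2 -
      ((starRingEnd ℂ) (phi p s z) / (‖phi p s z‖ : ℂ) * (phi p s w * a z w ^ 2)).re)))
    (h0 : ∫ z, ∑ᶠ w ∈ W z, (‖phi p s w‖ * ‖a z w‖ ^ 2 -
      ((starRingEnd ℂ) (phi p s z) / (‖phi p s z‖ : ℂ) * (phi p s w * a z w ^ 2)).re) = 0) :
    ∀ z ∉ P, z ≠ s → ∀ w ∈ W z, (starRingEnd ℂ) (phi p s z) * (phi p s w * a z w ^ 2) =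
      ((‖phi p s z‖ * (‖phi p s w‖ * ‖a z w‖ ^ 2) : ℝ) : ℂ) := by
  set H : ℂ → ℝ := fun z => ∑ᶠ w ∈ W z, (‖phi p s w‖ * ‖a z w‖ ^ 2 -
      ((starRingEnd ℂ) (phi p s z) / (‖phi p s z‖ : ℂ) * (phi p s w * a z w ^ 2)).re) with hH
  have hnn : ∀ z, 0 ≤ H z := fun z =>
    finsum_nonneg fun w => finsum_nonneg fun _ => term_nonneg _ _ _
  have hae : H =ᵐ[volume] 0 := (integral_eq_zero_iff_of_nonneg hnn hi).1 h0
  set U : Set ℂ := ((P : Set ℂ) ∪ {s})ᶜ with hU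
  have hUo : IsOpen U := ((P.finite_toSet.union (Set.finite_singleton s)).isClosed).isOpen_compl
  have hcont : ContinuousOn H U := by
    intro z hz
    have hz' : z ∉ (P : Set ℂ) ∪ {s} := hz
    have hzP : z ∉ P := fun h => hz' (Or.inl (by simpa using h))
    have hzs : z ≠ s := fun h => hz' (Or.inr (by simpa using h))
    exact (cont_H P N W a hB p hpP s av z hzP hzs).continuousWithinAt
  have heq : Set.EqOn H 0 U :=
    Measure.eqOn_open_of_ae_eq (ae_restrict_of_ae hae) hUo hcont continuousOn_const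
  intro z hz hzs w hw
  have hzU : z ∈ U := by
    intro h
    rcases h with h | h
    · exact hz (by simpa using h)
    · exact hzs (by simpa using h)
  have hHz : H z = 0 := heq hzU
  obtain ⟨r, hr, -, σ, h1, h2, h3⟩ := hB z hz
  obtain ⟨hinj, hW⟩ := h2 z (Metric.mem_ball_self hr)
  have hsum : ∑ j, (‖phi p s (σ j z)‖ * ‖a z (σ j z)‖ ^ 2 -
      ((starRingEnd ℂ) (phi p s z) / (‖phi p s z‖ : ℂ) *
        (phi p s (σ j z) * a z (σ j z) ^ 2)).re) = 0 := by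
    rw [← hHz]
    simp only [hH]
    rw [hW, finsum_mem_range hinj, finsum_eq_sum_of_fintype]
  have hall := (Finset.sum_eq_zero_iff_of_nonneg fun j _ => term_nonneg _ _ _).1 hsum
  have hw' : w ∈ Set.range fun j => σ j z := hW ▸ hw
  obtain ⟨j, rfl⟩ := hw'
  have hzp : ∀ i, z ≠ p i := fun i h => hz (h ▸ hpP i)
  have hne : phi p s z ≠ 0 := by
    unfold phi
    exact div_ne_zero (sub_ne_zero.2 hzs)
      (Finset.prod_ne_zero_iff.2 fun i _ => sub_ne_zero.2 (hzp i))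
  exact eq_of_term _ _ _ hne (hall j (Finset.mem_univ j))

end Pool.Agent.Helper83.L2
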